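import Pool.Agent.H17.BO.TargetsD

/-!
# Linear disjointness
-/

set_option autoImplicit false

namespace Pool.Agent.H54.BO

open Polynomial Pool.Agent.H17.BO

/-- the minimal polynomial does not change -/
private theorem minpoly_eq {k L Ω : Type} [Field k] [Field L] [Field Ω] [Algebra k L]
    [Algebra L Ω] [Algebra k Ω] [IsScalarTower k L Ω]
    (hk : ∀ z : L, IsAlgebraic k z → z ∈ Set.range (algebraMap k L)) (θ : Ω)
    (hθ : IsIntegral k θ) : (minpoly k θ).map (algebraMap k L) = minpoly L θ := by
  refine minpoly.map_algebraMap hθ ?_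
  have h1 : minpoly L θ ∣ (minpoly k θ).map (algebraMap k L) :=
    minpoly.dvd_map_of_isScalarTower k L θ
  have h2 := integralClosure.mem_lifts_of_monic_of_dvd_map L (minpoly.monic hθ)
    (minpoly.monic hθ.tower_top) h1
  rw [Polynomial.lifts_iff_coeff_lifts] at h2 ⊢
  intro n
  obtain ⟨c, hc⟩ := h2 n
  refine hk _ ?_
  have h3 : IsIntegral k ((algebraMap (integralClosure k L) L) c) := c.2
  rw [hc] at h3
  exact h3.isAlgebraic

theorem pf_LDJ : T_LDJ := by
  intro k L Ω _ _ _ _ _ _ _ _ hk ι _ x a ha hsum hx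
  set E : IntermediateField k Ω := IntermediateField.adjoin k (Set.range a) with hE
  haveI hfin : FiniteDimensional k E := by
    haveI : Finite (Set.range a) := Set.finite_range a
    refine IntermediateField.finiteDimensional_adjoin ?_
    rintro _ ⟨i, rfl⟩
    exact (ha i).isIntegral
  let pb := Field.powerBasisOfFiniteOfSeparable k E
  set θ : Ω := (pb.gen : Ω) with hθ
  have hθi : IsIntegral k θ := by
    have h1 : IsIntegral k pb.gen := Algebra.IsIntegral.isIntegral _
    exact h1.map (IsScalarTower.toAlgHom k E Ω)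
  have hmin : minpoly k θ = minpoly k pb.gen :=
    minpoly.algebraMap_eq (algebraMap E Ω).injective pb.gen
  have hdeg : (minpoly L θ).natDegree = pb.dim := by
    rw [← minpoly_eq hk θ hθi, natDegree_map, hmin, pb.natDegree_minpoly]
  have hmem : ∀ i, a i ∈ E := fun i => IntermediateField.subset_adjoin k _ ⟨i, rfl⟩
  set b : ι → Fin pb.dim → k := fun i l => pb.basis.repr ⟨a i, hmem i⟩ l with hb
  have hab : ∀ i, a i = ∑ l, algebraMap k Ω (b i l) * θ ^ (l : ℕ) := by
    intro i
    have h1 := congrArg (fun e : E => (e : Ω)) (pb.basis.sum_repr ⟨a i, hmem i⟩)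
    simp only [pb.coe_basis] at h1
    rw [← h1, hθ]
    push_cast
    refine Finset.sum_congr rfl fun l _ => ?_
    rw [Algebra.smul_def]
  set q : L[X] := ∑ l : Fin pb.dim, C (∑ i, b i l • x i) * X ^ (l : ℕ) with hq
  have hq0 : aeval θ q = 0 := by
    rw [← hsum, hq, map_sum]
    have h1 : ∀ i, algebraMap L Ω (x i) * a i =
        ∑ l, algebraMap L Ω (x i) * (algebraMap k Ω (b i l) * θ ^ (l : ℕ)) := fun i => by
      rw [hab i, Finset.mul_sum]
    rw [Finset.sum_congr rfl fun i _ => h1 i, Finset.sum_comm]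
    refine Finset.sum_congr rfl fun l _ => ?_
    rw [map_mul, aeval_C, map_pow, aeval_X, map_sum, Finset.sum_mul]
    refine Finset.sum_congr rfl fun i _ => ?_
    rw [Algebra.smul_def, map_mul, ← IsScalarTower.algebraMap_apply k L Ω]
    ring
  have hqd : q = 0 := by
    by_contra hne
    have h1 : minpoly L θ ∣ q := minpoly.dvd L θ hq0
    have h2 := natDegree_le_of_dvd h1 hne
    rw [hdeg] at h2
    have h3 : q.degree < pb.dim := by
      rw [hq]
      refine (degree_sum_le _ _).trans_lt ?_
      refine (Finset.sup_lt_iff (WithBot.bot_lt_coe _)).2 fun l _ => ?_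
      refine (degree_C_mul_X_pow_le _ _).trans_lt ?_
      exact_mod_cast l.2
    rw [degree_eq_natDegree hne] at h3
    have h4 : q.natDegree < pb.dim := by exact_mod_cast h3
    omega
  have hcoef : ∀ l : Fin pb.dim, ∑ i, b i l • x i = 0 := by
    intro l
    have h1 := congrArg (fun p : L[X] => p.coeff l) hqd
    simp only [hq, finset_sum_coeff, coeff_C_mul, coeff_X_pow, coeff_zero] at h1
    rw [Finset.sum_eq_single l] at h1
    · simpa using h1
    · intro l' _ hne
      have : (l : ℕ) ≠ l' := fun h => hne (Fin.ext h.symm)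
      simp [this]
    · simp
  intro i
  rw [hab i]
  refine Finset.sum_eq_zero fun l _ => ?_
  have h1 := (Fintype.linearIndependent_iff.1 hx) (fun i => b i l) (hcoef l) i
  rw [h1]
  simp

end Pool.Agent.H54.BO
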